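import Pool.Agent.W788.NW.Stm

/-!
# Project NW: evaluation of the right random walk on maps, general rates
-/

open Finset Pool.Agent.W788.NV Pool.Agent.W788.NW

namespace Pool.Agent.W52.NW

lemma hit_comp {V : Type} [Fintype V] [DecidableEq V] {q : ℕ} (k : (V → Fin q) → ℝ)
    (z : V → Fin q) (Φ Θ : Mp V q) :
    hit k z (fun x => Φ (Θ x)) = ∑ y, (if Φ y = z then 1 else 0) * hit k y Θ := by
  unfold hit
  simp only [Finset.mul_sum]
  rw [Finset.sum_comm]
  refine Finset.sum_congr rfl fun x _ => ?_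
  rw [Finset.sum_eq_single (Θ x)]
  · by_cases hz : Φ (Θ x) = z
    · rw [if_pos hz, if_pos hz, if_pos rfl, one_mul]
    · rw [if_neg hz, if_neg hz, zero_mul]
  · intro y _ hy
    rw [if_neg (Ne.symm hy), mul_zero]
  · intro hx
    exact absurd (Finset.mem_univ _) hx

theorem evg_ (h : MK) (h1 : S_IN) (h2 : S_LR) : S_EVG := by
  intro V _ _ q r t
  have p1 : ∀ (g : (V → Fin q) → ℝ) (x : V → Fin q),
      sg r (mR (V := V) (q := q)) t (fun Φ => g (Φ x)) id = sg r (act (V := V) (q := q)) t g x := by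
    intro g x
    have e1 : sg r (mR (V := V) (q := q)) t (fun Φ => g (Φ x)) id =
        sg r (mL (V := V) (q := q)) t (fun Φ => g (Φ x)) id :=
      h2 (V → Fin q) _ r act (fun Φ => g (Φ x)) t
    rw [e1]
    exact h1 (Mp V q) (V → Fin q) _ r mL act (fun Φ => Φ x) (fun e Φ => rfl) g id t
  have p2 : ∀ (F : Mp V q → ℝ) (Φ : Mp V q), sg r (mR (V := V) (q := q)) t F Φ =
      sg r (mR (V := V) (q := q)) t (fun Θ => F (fun x => Φ (Θ x))) id := by
    intro F Φ
    exact (h1 (Mp V q) (Mp V q) _ r mR mR (fun Θ => (fun x => Φ (Θ x))) (fun e Θ => rfl) F id t).symm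
  refine ⟨p1, p2, ?_⟩
  intro k hr ht hk
  have hhit : ∀ (y : V → Fin q) (Φ : Mp V q), 0 ≤ hit k y Φ := by
    intro y Φ
    unfold hit
    refine Finset.sum_nonneg fun x _ => ?_
    split_ifs
    · exact hk x
    · exact le_rfl
  refine ⟨fun y => sg r (mR (V := V) (q := q)) t (hit k y) id, ?_, ?_⟩
  · intro y
    have e1 := h.mono (Mp V q) _ r (mR (V := V) (q := q)) (fun _ => 0) (hit k y) id t hr ht
      (fun Φ => hhit y Φ)
    rw [h.cst] at e1
    exact e1
  · intro z Φ
    rw [p2]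
    have e1 : (fun Θ : Mp V q => hit k z (fun x => Φ (Θ x))) =
        fun Θ => ∑ y, (if Φ y = z then (1 : ℝ) else 0) * hit k y Θ := by
      funext Θ
      exact hit_comp k z Φ Θ
    rw [e1, h.lin (Mp V q) _ (V → Fin q) r (mR (V := V) (q := q))
      (fun y => if Φ y = z then (1 : ℝ) else 0) (fun y => hit k y) id t]
    unfold hit
    refine Finset.sum_congr rfl fun y _ => ?_
    by_cases hz : Φ y = z
    · rw [if_pos hz, if_pos hz, one_mul]
    · rw [if_neg hz, if_neg hz, zero_mul]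

end Pool.Agent.W52.NW
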