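import Pool.Agent.W788.NW.Stm

/-!
# Project NW: decay of the weighted dependences, with a terminal functional
-/

open Finset Pool.Agent.W788.NV Pool.Agent.W788.NW

namespace Pool.Agent.W52.NW

theorem ps_ (h : MK) (h1 : S_LEIB) (h2 : S_INV) (h3 : S_CLO) (h4 : S_RFP) (h5 : S_PSA)
    (h6 : S_TOT) : S_PS := by
  intro V _ _ G q θ Δ η S ω hy a b k z j p u hk hp hu
  have hq : 1 ≤ q := le_trans (by norm_num) hy.q2
  have hr0 := (h6 V G q θ hq hy.t0.le hy.t1.le hy.d1).1
  have hr : ∀ e, 0 ≤ srate G q θ e := by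
    intro e
    rcases e with e | w
    · exact hr0 e
    · exact hr0 (Sum.inr w)
  have hcl : ∀ (e : ((V × Fin q) ⊕ (V × V)) ⊕ (V × V)) (x : V × Mp V q), dep x.2 x.1 = ∅ →
      srate G q θ e ≠ 0 → dep (sm a b e x).2 (sm a b e x).1 = ∅ :=
    fun e x hx _ => h3 V q a b e x hx
  obtain ⟨c, hc⟩ : ∃ c : ℝ, c = θ / (2 * q) := ⟨_, rfl⟩
  let r := srate G q θ
  let m := sm (V := V) (q := q) a b
  let F : V × Mp V q → ℝ := fun y => wa ω j y.2
  let B : V × Mp V q → ℝ := fun y => hit (k y.1) z y.2
  let g : ℝ → ℝ := fun τ => sg r m τ (fun y => F y * sg r m (u - τ) B y) p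
  let g' : ℝ → ℝ := fun τ => sg r m τ
    (fun y => ∑ e, r e * ((F (m e y) - F y) * sg r m (u - τ) B (m e y))) p
  have hg : ∀ τ, HasDerivAt g (g' τ) τ := fun τ => h1 _ _ r m F B p u τ
  have hle : ∀ τ, 0 ≤ τ → τ ≤ u → g' τ ≤ -c * g τ := by
    intro τ h0 hu'
    obtain ⟨k', hk', hkk⟩ := h4 V G q θ hq hy.t0.le hy.t1.le hy.d1 a b k z (u - τ)
      (sub_nonneg.2 hu') hk
    have hkk' : ∀ y, sg r m (u - τ) B y = hit (k' y.1) z y.2 := fun y => hkk y
    have e1 := (h2 (V × Mp V q) _ r m (fun y => dep y.2 y.1 = ∅) hcl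
      (fun y => ∑ e, r e * ((F (m e y) - F y) * sg r m (u - τ) B (m e y)))
      (fun y => ∑ _i : Unit, -c * (F y * sg r m (u - τ) B y)) p τ 0 hp).2.1 hr h0 (by
        intro y hyI
        have e2 := h5 V G q θ Δ η S ω hy a b k' z j y hk' hyI
        rw [← hc] at e2
        simp only [Finset.univ_unique, Finset.sum_const, Finset.card_singleton, one_smul]
        have e3 : ∑ e, r e * ((F (m e y) - F y) * sg r m (u - τ) B (m e y)) =
            ∑ e, srate G q θ e * ((wa ω j (sm a b e y).2 - wa ω j y.2) *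
              hit (k' (sm a b e y).1) z (sm a b e y).2) := by
          refine Finset.sum_congr rfl fun e _ => ?_
          rw [hkk']
        rw [e3, hkk' y]
        exact e2)
    have e4 := h.lin (V × Mp V q) _ Unit r m (fun _ => -c)
      (fun _ y => F y * sg r m (u - τ) B y) p τ
    have e5 : g' τ ≤ sg r m τ (fun y => ∑ _i : Unit, -c * (F y * sg r m (u - τ) B y)) p := e1
    rw [e4] at e5
    simp only [Finset.univ_unique, Finset.sum_const, Finset.card_singleton, one_smul] at e5
    exact e5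
  let f : ℝ → ℝ := fun τ => Real.exp (c * τ) * g τ
  have hf : ∀ τ, HasDerivAt f (Real.exp (c * τ) * (c * g τ + g' τ)) τ := by
    intro τ
    have e1 : HasDerivAt (fun τ : ℝ => Real.exp (c * τ)) (Real.exp (c * τ) * c) τ := by
      have e2 : HasDerivAt (fun τ : ℝ => c * τ) c τ := by
        simpa using (hasDerivAt_id τ).const_mul c
      exact e2.exp
    have e3 := e1.mul (hg τ)
    have e4 : Real.exp (c * τ) * (c * g τ + g' τ) =
        Real.exp (c * τ) * c * g τ + Real.exp (c * τ) * g' τ := by ring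
    rw [e4]
    exact e3
  have hanti : AntitoneOn f (Set.Icc 0 u) := by
    apply antitoneOn_of_deriv_nonpos (convex_Icc 0 u)
    · exact fun τ _ => (hf τ).continuousAt.continuousWithinAt
    · exact fun τ _ => (hf τ).differentiableAt.differentiableWithinAt
    · intro τ hτ
      rw [interior_Icc] at hτ
      rw [(hf τ).deriv]
      have e1 := hle τ hτ.1.le hτ.2.le
      apply mul_nonpos_of_nonneg_of_nonpos (Real.exp_pos _).le
      linarith
  have hfin := hanti (Set.left_mem_Icc.2 hu) (Set.right_mem_Icc.2 hu) hu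
  have hf0 : f 0 = F p * sg r m u B p := by
    change Real.exp (c * 0) * sg r m 0 (fun y => F y * sg r m (u - 0) B y) p = _
    rw [h.zero, mul_zero, Real.exp_zero, one_mul, sub_zero]
  have hfu : f u = Real.exp (c * u) * sg r m u (fun y => F y * B y) p := by
    change Real.exp (c * u) * sg r m u (fun y => F y * sg r m (u - u) B y) p = _
    have e1 : (fun y => F y * sg r m (u - u) B y) = fun y => F y * B y := by
      funext y
      rw [sub_self, h.zero]
    rw [e1]
  rw [hf0, hfu] at hfin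
  have hexp : Real.exp (-(θ / (2 * q)) * u) * Real.exp (c * u) = 1 := by
    rw [← Real.exp_add, ← hc]
    have : -c * u + c * u = 0 := by ring
    rw [this, Real.exp_zero]
  change sg r m u (fun y => F y * B y) p ≤ Real.exp (-(θ / (2 * q)) * u) * (F p * sg r m u B p)
  calc sg r m u (fun y => F y * B y) p =
      Real.exp (-(θ / (2 * q)) * u) * (Real.exp (c * u) * sg r m u (fun y => F y * B y) p) := by
        rw [← mul_assoc, hexp, one_mul]
    _ ≤ Real.exp (-(θ / (2 * q)) * u) * (F p * sg r m u B p) :=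
        mul_le_mul_of_nonneg_left hfin (Real.exp_pos _).le

end Pool.Agent.W52.NW
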